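import Pool.Agent.MP_eed7cf_an.H72.Root

set_option autoImplicit false

namespace Pool.Agent.Results.MP_eed7cf_an.C0Roots

open Pool.Agent.MP_eed7cf_an

universe u v

/-- For the disc algebra `A`, a nonempty locally compact Hausdorff space `S` and a complex Banach
space `X`, the space of continuous `X`-valued functions on `S` vanishing at infinity is isomorphic
to `A` exactly when `X` is isomorphic to `A`, `S` is countable and some finitely iterated derived
set of `S` is empty. -/
theorem result :
    ∀ A : Submodule ℂ (BoundedContinuousFunction (Metric.closedBall (0 : ℂ) 1) ℂ),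
      (∀ f : BoundedContinuousFunction (Metric.closedBall (0 : ℂ) 1) ℂ,
        f ∈ A ↔ ∃ g : ℂ → ℂ, DifferentiableOn ℂ g (Metric.ball (0 : ℂ) 1) ∧
          ∀ x : Metric.closedBall (0 : ℂ) 1, f x = g x) →
      ∀ (S : Type u) [TopologicalSpace S] [T2Space S] [LocallyCompactSpace S] [Nonempty S]
        (X : Type v) [NormedAddCommGroup X] [NormedSpace ℂ X] [CompleteSpace X],
        (Nonempty (ZeroAtInftyContinuousMap S X ≃L[ℂ] A) ↔
          Nonempty (X ≃L[ℂ] A) ∧ Countable S ∧
            ∃ n : ℕ, derivedSet^[n] (Set.univ : Set S) = ∅) := by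
  intro A hA S _ _ _ _ X _ _ _
  obtain rfl : A = Subalgebra.toSubmodule DA := Submodule.ext fun f => (hA f).trans mem_DA.symm
  exact H72.main

end Pool.Agent.Results.MP_eed7cf_an.C0Roots
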