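import Pool.Agent.MP_eed7cf_an.Mg.H42_Up

set_option autoImplicit false

namespace Pool.Agent.Results.MP_eed7cf_an.Classification

open Pool.Agent.MP_eed7cf_an

universe u v

/-- For the disc algebra `A` and nonempty locally compact Hausdorff spaces `S`, `T` with `T` second
countable and with transfinite derived sets `DS`, `DT`, the spaces of continuous `A`-valued
functions vanishing at infinity on `S` and on `T` are isomorphic exactly when `S` is second
countable and the derived sets vanish below the same ordinals `ω ^ α`, `α > 0`. -/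
theorem result :
    ∀ A : Submodule ℂ (BoundedContinuousFunction (Metric.closedBall (0 : ℂ) 1) ℂ),
      (∀ f : BoundedContinuousFunction (Metric.closedBall (0 : ℂ) 1) ℂ,
        f ∈ A ↔ ∃ g : ℂ → ℂ, DifferentiableOn ℂ g (Metric.ball (0 : ℂ) 1) ∧
          ∀ x : Metric.closedBall (0 : ℂ) 1, f x = g x) →
      ∀ (S : Type u) [TopologicalSpace S] [T2Space S] [LocallyCompactSpace S] [Nonempty S]
        (T : Type v) [TopologicalSpace T] [T2Space T] [LocallyCompactSpace T] [Nonempty T]
        [SecondCountableTopology T] (DS : Ordinal.{0} → Set S) (DT : Ordinal.{0} → Set T),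
        DS 0 = Set.univ → (∀ ξ, DS (Order.succ ξ) = derivedSet (DS ξ)) →
        (∀ ξ, Order.IsSuccLimit ξ → DS ξ = ⋂ ζ < ξ, DS ζ) →
        DT 0 = Set.univ → (∀ ξ, DT (Order.succ ξ) = derivedSet (DT ξ)) →
        (∀ ξ, Order.IsSuccLimit ξ → DT ξ = ⋂ ζ < ξ, DT ζ) →
        (Nonempty (ZeroAtInftyContinuousMap S A ≃L[ℂ] ZeroAtInftyContinuousMap T A) ↔
          SecondCountableTopology S ∧ ∀ α : Ordinal.{0}, 0 < α →
            ((∃ ξ < Ordinal.omega0 ^ α, DS ξ = ∅) ↔ ∃ ξ < Ordinal.omega0 ^ α, DT ξ = ∅)) := by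
  intro A hA S _ _ _ _ T _ _ _ _ _ DS DT s0 s1 s2 t0 t1 t2
  obtain rfl : A = Subalgebra.toSubmodule DA := Submodule.ext fun f => (hA f).trans mem_DA.symm
  simp only [H42.eq_cb DS s0 s1 s2, H42.eq_cb DT t0 t1 t2]
  exact H42.main

end Pool.Agent.Results.MP_eed7cf_an.Classification
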