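import Pool.Agent.MP_eed7cf_an.Mg.Main

set_option autoImplicit false

namespace Pool.Agent.Results.MP_eed7cf_an.Primary

open Pool.Agent.MP_eed7cf_an

universe u v

/-- If the c-zero sum of countably many copies of the disc algebra `A` is isomorphic to a product
`Y × Z`, then `A` is isomorphic to `Y` or to `Z`. -/
theorem result :
    ∀ A : Submodule ℂ (BoundedContinuousFunction (Metric.closedBall (0 : ℂ) 1) ℂ),
      (∀ f : BoundedContinuousFunction (Metric.closedBall (0 : ℂ) 1) ℂ,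
        f ∈ A ↔ ∃ g : ℂ → ℂ, DifferentiableOn ℂ g (Metric.ball (0 : ℂ) 1) ∧
          ∀ x : Metric.closedBall (0 : ℂ) 1, f x = g x) →
      ∀ (Y : Type u) (Z : Type v) [NormedAddCommGroup Y] [NormedSpace ℂ Y]
        [NormedAddCommGroup Z] [NormedSpace ℂ Z],
        Nonempty (ZeroAtInftyContinuousMap ℕ A ≃L[ℂ] Y × Z) →
          Nonempty (A ≃L[ℂ] Y) ∨ Nonempty (A ≃L[ℂ] Z) := by
  intro A hA Y Z _ _ _ _ ⟨e⟩
  obtain rfl : A = Subalgebra.toSubmodule DA := Submodule.ext fun f => (hA f).trans mem_DA.symm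
  obtain ⟨J, R, h⟩ := sum_compl
  exact primary_of (E := DA) h fac e

end Pool.Agent.Results.MP_eed7cf_an.Primary
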